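import Pool.Agent.U20.DL.Final

/-!
# Finding hypotheses for small DNF formulas with decomposable circuits

The input is a sample of `m` labelled examples `(x, y)`, `x` a point of the cube with `n`
coordinates; the variables are the `m` examples, so a leaf may test any property of one labelled
example. A circuit (`Pool/Agent/U20/DN/Defs.lean`) has such leaves, conjunctions of two gates and
disjunctions of arbitrarily many gates; it is decomposable (a DNNF) if no example occurs below both
gates of a conjunction. A gate accepts a sample if there is a proof tree. The circuits need not be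
acyclic. The model contains the nondeterministic read-once branching programs over the examples
and all nondeterministic algorithms that divide the sample between independent subproblems, in
an order or along a tree which may depend on the sample.

The circuit is used as a learner: some gates are outputs, every output `i` stands for a hypothesis
`hyp i`, an arbitrary function on the cube, and the learner is successful on a sample if some
output accepts it. It is `Sound` if its outputs only accept samples on which their hypotheses
are right with frequency at least `1 / 2 + 1 / g`.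

A decomposable circuit which is successful on a uniformly random sample of `m ≥ 16 g ^ 3 log C`
examples of a random parity of `k` of the `n` bits with probability at least `2 ^ (- μ)` has at least
`2 ^ (- μ) C ^ (1 / P) - 1` gates, where `C` is the binomial coefficient `n.choose k` and
`P = 2 ^ 16 g ^ 3`, if `C ≥ (256 g ^ 2) ^ (98 g)`. The same holds for random circuits. The parities of
`k` bits have DNF formulas with `2 ^ (k - 1) + 1` gates; so for `n = 2 ^ k` variables and
formulas with at most `n` gates the number of gates is `n ^ Ω(log n)`, with a constant in the exponent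
which depends on `g` only. Conversely there is a decomposable circuit with `C (2 m + 1) + 1` gates
whose outputs only accept samples without errors and which is successful on all samples of
parities of `k` bits.

(The parities could be learned in polynomial time by Gaussian elimination, which has no counterpart
in this model. So this is a statement about the model, not about all learners.)

Proof: Among the accepted samples of the given family (points `X`, parity `A`) a fraction
`s ^ (- 2 t)`, `s` the number of gates, is contained in one product set of accepted samples with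
respect to a partition of the examples into `t = 192 g ^ 2 + 2` parts with at most `m / (16 g ^ 2)`
examples each (`Pool/Agent/U20/DN`). The mixture of `t` samples labelled by `t` parities of which
fewer than `4 g` are repeated has no good hypothesis: by Bessel's inequality the sum of the
correlations of a function with the parities, weighted with the sizes of the parts, is at most
`m / (2 g)`, and by the exponential moment method a given hypothesis has advantage `1 / g` on the
mixture with probability at most `exp (- 3 m / (16 g ^ 2))`. The number of hypotheses is at most the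
number of gates.
-/

set_option autoImplicit false

namespace Pool.Agent.Results.MP_cba12a_lc.DecomposableLearners

open Pool.Agent.U20.DN Pool.Agent.U20.DL Pool.Agent.W964.Wd

/-- 1. The parities of `k` bits are DNF formulas with at most `2 ^ (k - 1) + 1` gates.

2. Lower bound for random decomposable circuits which find, with probability at least `2 ^ (- μ)`
for a random sample of a random parity of `k` bits, a hypothesis with advantage `1 / g` on the
sample.

3. The case of DNF formulas with at most `n` gates, `n = 2 ^ k` variables.

4. Upper bound. -/
theorem result :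
    (∀ (n k : ℕ) (A : Finset (Fin n)), 1 ≤ k → A.card = k → IsDnf (2 ^ (k - 1) + 1) (par A)) ∧
    (∀ g n k m : ℕ, 1 ≤ g → (256 * g ^ 2) ^ (98 * g) ≤ n.choose k →
      n.choose k ^ (16 * g ^ 3) ≤ 2 ^ m →
      ∀ (μ : ℕ) (R : Type) [Fintype R] [Nonempty R] (I : R → Type) [∀ ρ, Fintype (I ρ)]
        (G : ∀ ρ, I ρ → Gate (Fin m) (Ex n) (I ρ)) (O : ∀ ρ, Set (I ρ))
        (hyp : ∀ ρ, I ρ → (Fin n → Bool) → Bool),
        (∀ ρ, Decomposable (G ρ)) → (∀ ρ, Sound g (G ρ) (O ρ) (hyp ρ)) →
        Nat.card R * (2 ^ (n * m) * n.choose k) ≤ 2 ^ μ *
          Nat.card {q : R × (Fin m → Fin n → Bool) × {A : Finset (Fin n) // A.card = k} //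
            Finds (G q.1) (O q.1) (labelled (par q.2.2.1) q.2.1)} →
        ∃ ρ, n.choose k ≤ (2 ^ μ * (Fintype.card (I ρ) + 1)) ^ (2 ^ 16 * g ^ 3)) ∧
    (∀ g k m : ℕ, 1 ≤ g → 40 * g ≤ k → 16 * g ^ 3 * k ^ 2 ≤ m →
      ∀ (μ : ℕ) (R : Type) [Fintype R] [Nonempty R] (I : R → Type) [∀ ρ, Fintype (I ρ)]
        (G : ∀ ρ, I ρ → Gate (Fin m) (Ex (2 ^ k)) (I ρ)) (O : ∀ ρ, Set (I ρ))
        (hyp : ∀ ρ, I ρ → (Fin (2 ^ k) → Bool) → Bool),
        (∀ ρ, Decomposable (G ρ)) → (∀ ρ, Sound g (G ρ) (O ρ) (hyp ρ)) →
        (∀ f : (Fin (2 ^ k) → Bool) → Bool, IsDnf (2 ^ k) f →
          Nat.card R * 2 ^ (2 ^ k * m) ≤ 2 ^ μ *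
            Nat.card {q : R × (Fin m → Fin (2 ^ k) → Bool) //
              Finds (G q.1) (O q.1) (labelled f q.2)}) →
        ∃ ρ, 2 ^ (k ^ 2) ≤ (2 ^ μ * (Fintype.card (I ρ) + 1)) ^ (2 ^ 17 * g ^ 3)) ∧
    (∀ n m k : ℕ,
      ∃ (I : Type) (_ : Fintype I) (G : I → Gate (Fin m) (Ex n) I) (O : Set I)
        (hyp : I → (Fin n → Bool) → Bool),
        Decomposable G ∧ Fintype.card I = n.choose k * (2 * m + 1) + 1 ∧
          (∀ i ∈ O, ∀ S : Fin m → Ex n, Acc G S i → errors (hyp i) S = 0) ∧
          ∀ A : Finset (Fin n), A.card = k → ∀ X : Fin m → Fin n → Bool,
            ∃ i ∈ O, hyp i = par A ∧ Acc G (labelled (par A) X) i) :=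
  ⟨fun _ _ A hk hA => par_dnf hk A hA,
    fun _ _ _ _ hg hC hm μ R _ _ I _ G O hyp hd hs hp =>
      main_learn hg hC hm μ R I G O hyp hd hs hp,
    fun _ _ _ hg hk hm μ R _ _ I _ G O hyp hd hs hp =>
      main_poly hg hk hm μ R I G O hyp hd hs hp,
    upper_learn⟩

end Pool.Agent.Results.MP_cba12a_lc.DecomposableLearners
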