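import Pool.Agent.U864.OT.SampleFinal

/-!
# Recognising the samples of small DNF formulas with nondeterministic one-tape machines

The input is a sample of `m` labelled examples in `n` variables, written on the tape as a word of `N = m (n + 1)` bits
(`word`, `Pool/Agent/U864/OT/Sample.lean`). The task is the decision version of learning, for nondeterministic one-tape
machines (`Machine`, `Pool/Agent/U864/OT/Basic.lean`): accept random samples labelled by a DNF formula with at most `n`
gates with probability at least `2 ^ (- μ)`, within `T` steps, and accept no sample on which no DNF formula with at most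
`s` gates is right with frequency at least `1 / 2 + 1 / g`.

For `n = 2 ^ k` variables this needs `T log (q + 1) ≥ c N (log n) ^ 2` (`q` states), where `c > 0` depends on `g` only, as
long as `m` and `2 ^ μ` are at most `n ^ (c log n)`. More generally, for random parities of `k` bits as targets and any
finite class of hypotheses, `T log (q + 1) ≥ c N log (n.choose k)`.

Proof: in each of `256 g ^ 2 - 1` disjoint blocks of the tape the computation has a short crossing sequence at some
boundary. Samples with the same boundaries and the same crossing sequences can be put together (`comp_run`); all examples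
except for the at most `256 g ^ 2 - 1` which contain a boundary are then those of the given samples, and mixtures of
samples which are labelled by different parities have no good hypothesis (`Pool/Agent/U20/DL/Few.lean`).
-/

set_option autoImplicit false

namespace Pool.Agent.Results.MP_cba12a_lc.OneTapeMachines

open Pool.Agent.U20.DL Pool.Agent.U864.OT Pool.Agent.W964.Wd

/-- 1. Lower bound for all finite classes of hypotheses and parities of `k` bits.

2. Lower bound for DNF formulas with at most `n` gates, `n = 2 ^ k` variables, and the hypotheses which have a DNF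
formula with at most `s` gates.

3. The same for the time. -/
theorem result :
    (∀ g n k m : ℕ, 1 ≤ g → (256 * g ^ 2) ^ (65 * g) ≤ n.choose k →
      ∀ H : Finset ((Fin n → Bool) → Bool),
        (2 * H.card * n.choose k ^ (4 * g)) ^ (16 * g ^ 2) ≤ 2 ^ m → 512 * g ^ 3 ≤ m →
      ∀ (μ T q : ℕ) (M : Machine Bool q),
        (∀ S : Fin m → Ex n, (∀ h ∈ H, ¬ Adv g h S) → ¬ Accepts M (List.ofFn (word S))) →
        2 ^ (n * m) * n.choose k ≤ 2 ^ μ *
          Nat.card {u : (Fin m → Fin n → Bool) × {A : Finset (Fin n) // A.card = k} //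
            AcceptsIn M (List.ofFn (word (labelled (par u.2.1) u.1))) T} →
        n.choose k ≤ (2 ^ μ * (m / (128 * g ^ 2) * (n + 1)) *
          (q + 1) ^ (T / (m / (128 * g ^ 2) * (n + 1)))) ^ (2 ^ 14 * g ^ 3)) ∧
    (∀ g k s m : ℕ, 1 ≤ g → 80 * g ≤ k → 80 * g ^ 3 * (2 ^ k * s + k ^ 2) ≤ m →
      ∀ (μ T q : ℕ) (M : Machine Bool q),
        (∀ S : Fin m → Ex (2 ^ k), (∀ h, IsDnf s h → ¬ Adv g h S) →
          ¬ Accepts M (List.ofFn (word S))) →
        (∀ f : (Fin (2 ^ k) → Bool) → Bool, IsDnf (2 ^ k) f → 2 ^ (2 ^ k * m) ≤ 2 ^ μ *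
          Nat.card {X : Fin m → Fin (2 ^ k) → Bool //
            AcceptsIn M (List.ofFn (word (labelled f X))) T}) →
        2 ^ (k ^ 2) ≤ (2 ^ μ * (m / (128 * g ^ 2) * (2 ^ k + 1)) *
          (q + 1) ^ (T / (m / (128 * g ^ 2) * (2 ^ k + 1)))) ^ (2 ^ 15 * g ^ 3) ∧
        ((2 ^ μ * (m / (128 * g ^ 2) * (2 ^ k + 1))) ^ (2 ^ 16 * g ^ 3) ≤ 2 ^ (k ^ 2) →
          2 ^ (k ^ 2 * (m / (128 * g ^ 2) * (2 ^ k + 1))) ≤ (q + 1) ^ (2 ^ 16 * g ^ 3 * T))) := by
  refine ⟨fun g n k m hg hC H hK hm μ T q M hno hp => main_tape hg hC H hK hm M hno hp,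
    fun g k s m hg hk hm μ T q M hno hp => ?_⟩
  have h1 := main_tape_dnf hg hk hm M hno hp
  refine ⟨h1, fun h2 => ?_⟩
  have e : 2 ^ 16 * g ^ 3 = 2 * (2 ^ 15 * g ^ 3) := by ring
  have hD : 0 < m / (128 * g ^ 2) * (2 ^ k + 1) := by
    refine Nat.mul_pos (Nat.div_pos ?_ (by positivity)) (by positivity)
    have hg23 : g ^ 2 ≤ g ^ 3 := Nat.pow_le_pow_right hg (by norm_num)
    have hk1 : 6400 ≤ k ^ 2 := by nlinarith
    have hkg : g ^ 3 * 6400 ≤ g ^ 3 * k ^ 2 := Nat.mul_le_mul_left _ hk1
    have hmE : 80 * g ^ 3 * (2 ^ k * s + k ^ 2) =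
      80 * (g ^ 3 * (2 ^ k * s)) + 80 * (g ^ 3 * k ^ 2) := by ring
    omega
  rw [e] at h2 ⊢
  exact time_bound (k := k) hD h1 h2

end Pool.Agent.Results.MP_cba12a_lc.OneTapeMachines
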