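import Pool.Agent.U571.PS.Main

/-!
# The size of constant-depth circuits that learn DNF formulas with `s` terms

The starting result ConstantDepthPredictors treats polynomial size.  Here is the size that is
needed: `m ^ Θ(log s)`.
-/

/-- 1. There is a function `K` that tends to infinity such that for all `m` and all `s` with
`2 ≤ s ≤ K m`: for every predictor (a circuit that gets any number `N` of uniform examples labelled
by the target, random bits and a fresh point, and guesses its label) of depth at most `K m` whose
leaves are arbitrary functions of all labels, all random bits and `(log₂ s) / 2` attributes of all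
examples, and which has at most `m ^ ((log₂ s + 1) / 5)` nodes, there is a DNF formula with at most
`s` terms, each with at most `log₂ s + 1` literals, for which the guess is right with probability at
most `1 / 2 + 1 / K m`.

2. For all `m, s, h` there are an `N` and a deterministic predictor of depth at most `3`, whose
leaves read one attribute each, with at most `2 ^ (h + 2) (2 m + 1) ^ (2 (log₂ s + h) + 1)` nodes,
whose guess is right with probability at least `1 - 2 / 2 ^ h` for every DNF formula with at most
`s` terms. -/
theorem Pool.Agent.Results.MP_cba12a_lc.PredictorSize.result :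
    (∃ K : ℕ → ℕ, Filter.Tendsto K Filter.atTop Filter.atTop ∧
      ∀ m s : ℕ, 2 ≤ s → s ≤ K m → ∀ (N R : ℕ) (P : DNFPrediction.Predictor m N R),
        P.circuit.depth ≤ K m → (∀ e, (P.reads e).card ≤ Nat.log 2 s / 2) →
        P.nodes ^ 5 ≤ m ^ (Nat.log 2 s + 1) →
        ∃ F : DNFPrediction.DNF m, F.card ≤ s ∧ (∀ t ∈ F, t.card ≤ Nat.log 2 s + 1) ∧
          P.success F.eval ≤ 1 / 2 + 1 / K m) ∧
    (∀ m s h : ℕ, ∃ (N : ℕ) (P : DNFPrediction.Predictor m N 0),
      P.circuit.depth ≤ 3 ∧ (∀ e, (P.reads e).card ≤ 1) ∧
      P.nodes ≤ 2 ^ (h + 2) * (2 * m + 1) ^ (2 * (Nat.log 2 s + h) + 1) ∧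
      ∀ F : DNFPrediction.DNF m, F.card ≤ s → 1 - 2 / 2 ^ h ≤ P.success F.eval) :=
  ⟨Pool.Agent.U571.PS.lower, Pool.Agent.U571.PS.upper⟩
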