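import Pool.Agent.U20.DL.Net

/-!
# Recognising the samples of small DNF formulas with read-once tensor networks

A tree tensor network `Net K V A W` (`Pool/Agent/TH700/PA/Defs.lean`) has leaves that read one
symbol of the alphabet `A` each (with a vector in `K ^ W` for each symbol); an inner node combines
the vectors of its two children by an arbitrary bilinear map. It accepts an input if a linear
form of the vector of the root is not zero. The field `K` and the weights are arbitrary, so there
may be cancellations. The tree is arbitrary; if every right child is a leaf then this is a matrix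
product (a weighted ordered read-once branching program, for any order of the examples). The bond
dimension is `card W`.

The inputs are samples of `m` labelled examples, a leaf reads one labelled example. The task is
the decision version of learning (realisable samples against samples without any good
hypothesis): accept random samples labelled by a DNF formula with at most `n` gates with
probability at least `2 ^ (- μ)`, and reject every sample on which no DNF formula with at most `s`
gates is right with frequency at least `1 / 2 + 1 / g`. (A learner whose hypotheses have at most `s`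
gates solves this task if its hypothesis is tested on the sample.)

For `n = 2 ^ k` variables, `k ≥ 80 g` and `m ≥ 16 g ^ 3 (n s + k ^ 2)` examples this needs bond
dimension `2 ^ (- μ) n ^ (log n / (2 ^ 11 g))`, for any number of nodes, also for random networks with
one-sided error. More generally, for all `n`, `k` with `C = n.choose k ≥ (256 g ^ 2) ^ (400 g)` and
every finite class `H` of hypotheses, networks which accept random samples of random parities of
`k` bits with probability at least `2 ^ (- μ)` and reject all samples on which no hypothesis in `H`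
has advantage `1 / g` have bond dimension at least `2 ^ (- μ) C ^ (1 / (2 ^ 10 g))`, if
`(2 |H| C ^ (2 g)) ^ (4 g ^ 2) ≤ 2 ^ m`.

Conversely a linear network over `ℚ` with `2 m - 1` nodes and bond dimension `C` which reads every
example once accepts exactly the samples which are consistent with a parity of `k` bits.

(Gaussian elimination solves the task for parities in polynomial time; it has no counterpart in
this model. So this is a statement about the model, not about all learners.)

Proof: the lemmas on tensor networks of the library `TH700.PA` (rank of the parts, replacement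
lemma) give a product set of accepted mixtures with respect to a partition of the examples into
`192 g ^ 2 + 2` parts. Mixtures of samples labelled by different parities have no good hypothesis
in `H` with high probability (`U20/DL/Few.lean`).
-/

set_option autoImplicit false

namespace Pool.Agent.Results.MP_cba12a_lc.TensorNetworks

open Pool.Agent.U20.DL Pool.Agent.W964.Wd
open Pool.Agent.TH700.PA (Net)

/-- 1. The parities of `k` bits are DNF formulas with at most `2 ^ (k - 1) + 1` gates.

2. Lower bound for all finite classes of hypotheses and parities of `k` bits.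

3. Lower bound for DNF formulas with at most `n` gates, `n = 2 ^ k` variables, and the hypotheses
which have a DNF formula with at most `s` gates.

4. Upper bound. -/
theorem result :
    (∀ (n k : ℕ) (A : Finset (Fin n)), 1 ≤ k → A.card = k → IsDnf (2 ^ (k - 1) + 1) (par A)) ∧
    (∀ g n k m : ℕ, 1 ≤ g → (256 * g ^ 2) ^ (400 * g) ≤ n.choose k →
      ∀ H : Finset ((Fin n → Bool) → Bool),
        (2 * H.card * n.choose k ^ (2 * g)) ^ (4 * g ^ 2) ≤ 2 ^ m → 32 * g ^ 2 ≤ m →
      ∀ (μ : ℕ) (R : Type) [Fintype R] [Nonempty R] (K W : R → Type) [∀ ρ, Field (K ρ)]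
        [∀ ρ, Fintype (W ρ)] (T : ∀ ρ, Net (K ρ) (Fin m) (Ex n) (W ρ)) (c : ∀ ρ, W ρ → K ρ),
        (∀ ρ e, (T ρ).reads e ≤ 1) →
        (∀ ρ (S : Fin m → Ex n), (∀ h ∈ H, ¬ Adv g h S) → (T ρ).value (c ρ) S = 0) →
        Nat.card R * (2 ^ (n * m) * n.choose k) ≤ 2 ^ μ *
          Nat.card {q : R × (Fin m → Fin n → Bool) × {A : Finset (Fin n) // A.card = k} //
            (T q.1).value (c q.1) (labelled (par q.2.2.1) q.2.1) ≠ 0} →
        ∃ ρ, n.choose k ≤ (2 ^ μ * Fintype.card (W ρ)) ^ (2 ^ 10 * g)) ∧
    (∀ g k s m : ℕ, 1 ≤ g → 80 * g ≤ k → 16 * g ^ 3 * (2 ^ k * s + k ^ 2) ≤ m →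
      ∀ (μ : ℕ) (R : Type) [Fintype R] [Nonempty R] (K W : R → Type) [∀ ρ, Field (K ρ)]
        [∀ ρ, Fintype (W ρ)] (T : ∀ ρ, Net (K ρ) (Fin m) (Ex (2 ^ k)) (W ρ))
        (c : ∀ ρ, W ρ → K ρ),
        (∀ ρ e, (T ρ).reads e ≤ 1) →
        (∀ ρ (S : Fin m → Ex (2 ^ k)), (∀ h, IsDnf s h → ¬ Adv g h S) →
          (T ρ).value (c ρ) S = 0) →
        (∀ f : (Fin (2 ^ k) → Bool) → Bool, IsDnf (2 ^ k) f →
          Nat.card R * 2 ^ (2 ^ k * m) ≤ 2 ^ μ *
            Nat.card {q : R × (Fin m → Fin (2 ^ k) → Bool) //
              (T q.1).value (c q.1) (labelled f q.2) ≠ 0}) →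
        ∃ ρ, 2 ^ (k ^ 2) ≤ (2 ^ μ * Fintype.card (W ρ)) ^ (2 ^ 11 * g)) ∧
    (∀ n k m : ℕ, 1 ≤ m →
      ∃ (T : Net ℚ (Fin m) (Ex n) {A : Finset (Fin n) // A.card = k})
        (c : {A : Finset (Fin n) // A.card = k} → ℚ),
        T.Linear ∧ (∀ e, T.reads e = 1) ∧ T.size = 2 * m - 1 ∧
          ∀ S : Fin m → Ex n, T.value c S ≠ 0 ↔
            ∃ A : Finset (Fin n), A.card = k ∧ ∀ i, par A (S i).1 = (S i).2) :=
  ⟨fun _ _ A hk hA => par_dnf hk A hA,
    fun _ _ _ _ hg hC H hm hmm μ R _ _ K W _ _ T c h1 hno hp =>
      main_refute hg hC H hm hmm μ R K W T c h1 hno hp,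
    fun _ _ _ _ hg hk hm μ R _ _ K W _ _ T c h1 hno hp =>
      refute_poly hg hk hm μ R K W T c h1 hno hp,
    fun n k _ hm => upper_refute n k hm⟩

end Pool.Agent.Results.MP_cba12a_lc.TensorNetworks
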